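import Pool.Agent.Lib.MP_144d21_co.X4.Iface
import Pool.Agent.Lib.MP_144d21_co.X2.H16.Star
import Pool.Agent.Lib.MP_144d21_co.X2.H16.Bnn

/-!
# MP_144d21_co, project X4, module DV: `beta(S) >= (deg v - 1) beta(S - v)` for 3-connected `G[S]`
-/

set_option autoImplicit false

namespace Pool.Agent.Xu.X4

open Finset Polynomial

theorem dv : DvS := by
  intro V _ _ G S v h3 hv
  obtain ⟨h4, h2, h22⟩ := h3
  have hcon : Conn G (S.erase v) := h2.2.2 v hv
  have hcard : 2 ≤ (S.erase v).card := by
    rw [card_erase_of_mem hv]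
    omega
  have hne : (nb G S v).Nonempty := by
    obtain ⟨a, ha, b, hb, hba, hab⟩ := h2.2.1.2 {v} (singleton_subset_iff.mpr hv)
      (singleton_nonempty v) (by
        rintro rfl
        simp at h4)
    rw [mem_singleton] at ha
    subst ha
    exact ⟨b, mem_nb.mpr ⟨hb, hab⟩⟩
  obtain ⟨k, hk⟩ : ∃ k, (nb G S v).card = k + 1 :=
    Nat.exists_eq_succ_of_ne_zero (card_pos.mpr hne).ne'
  let e := (nb G S v).equivFinOfCardEq hk
  let x : Fin (k + 1) → V := fun i => ((e.symm i : nb G S v) : V)
  have hx : Function.Injective x := Subtype.val_injective.comp e.symm.injective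
  have him : univ.image x = nb G S v := by
    ext w
    rw [mem_image]
    constructor
    · rintro ⟨i, -, rfl⟩
      exact (e.symm i).2
    · intro hw
      exact ⟨e ⟨w, hw⟩, mem_univ _, by simp [x]⟩
  rw [X2.stx V G S v k x ⟨h4, h2, h22⟩ hv hx him, hk]
  calc (((k + 1 : ℕ) : ℤ) - 1) * bet G (S.erase v) = ∑ _i : Fin k, bet G (S.erase v) := by
        rw [sum_const, card_univ, Fintype.card_fin, nsmul_eq_mul]
        push_cast
        ring
    _ ≤ _ := sum_le_sum fun i _ => X2.bmon V G _ _ hcon hcard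

end Pool.Agent.Xu.X4
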