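import Pool.Agent.Lib.MP_144d21_co.X4.Iface2
import Pool.Agent.Lib.MP_144d21_co.X2.H25.Side

/-!
# MP_144d21_co, project X4, module CKL: in a 3-connected graph of minimum degree at least 4 the
deletion of some vertex leaves a 3-connected graph (Chartrand, Kaugars, Lick)
-/

set_option autoImplicit false

namespace Pool.Agent.Xu.X4

open Finset Pool.Agent.Xu.X2.H41 Pool.Agent.Xu.X2.H25

namespace CKL

variable {V : Type} [Fintype V] [DecidableEq V] {G : SimpleGraph V}

theorem cells {S T P Q : Finset V} (h : Sepn G S T P Q) (X : Finset V) (hX : X ⊆ S) :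
    (X ∩ T).card + (X ∩ P).card + (X ∩ Q).card = X.card := by
  have e : X = X ∩ T ∪ X ∩ P ∪ X ∩ Q := by
    ext x
    simp only [mem_union, mem_inter]
    have := h.un x
    have := @hX x
    tauto
  have d1 : Disjoint (X ∩ T) (X ∩ P) :=
    disjoint_left.2 fun x hx hx' => h.tp x (mem_inter.1 hx).2 (mem_inter.1 hx').2
  have d2 : Disjoint (X ∩ T ∪ X ∩ P) (X ∩ Q) := by
    rw [disjoint_union_left]
    exact ⟨disjoint_left.2 fun x hx hx' => h.tq x (mem_inter.1 hx).2 (mem_inter.1 hx').2,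
      disjoint_left.2 fun x hx hx' => h.pq x (mem_inter.1 hx).2 (mem_inter.1 hx').2⟩
  conv_rhs => rw [e]
  rw [card_union_of_disjoint d2, card_union_of_disjoint d1]

theorem corner_le {S T A B T2 A2 B2 : Finset V} (h1 : Sepn G S T A B) (h2 : Sepn G S T2 A2 B2)
    (hne : (B ∩ A2).Nonempty) : ∃ T3 Q3 : Finset V, Sepn G S T3 (B ∩ A2) Q3 ∧
      T3.card ≤ (T ∩ A2).card + (T ∩ T2).card + (B ∩ T2).card := by
  obtain ⟨x, hx⟩ := hne
  obtain ⟨hx1, hx2⟩ := mem_inter.1 hx
  have hc := corner h1 h2 hx1 hx2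
  have hP : (S.filter fun x => x ∈ B ∧ x ∈ A2) = B ∩ A2 := by
    ext y
    rw [mem_filter, mem_inter]
    exact ⟨fun h => h.2, fun h => ⟨h1.subQ h.1, h⟩⟩
  rw [hP] at hc
  refine ⟨_, _, hc, ?_⟩
  refine le_trans (card_le_card (t := T ∩ A2 ∪ T ∩ T2 ∪ B ∩ T2) ?_)
    (le_trans (card_union_le _ _) (Nat.add_le_add_right (card_union_le _ _) _))
  intro y hy
  simp only [mem_filter, mem_union, mem_inter] at hy ⊢
  tauto

end CKL

theorem ckl : CklS := by
  intro V _ _ G S h3 hdeg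
  by_contra hcon
  push Not at hcon
  obtain ⟨h4, hC⟩ := threeConn_iff.1 h3
  have h5 : 5 ≤ S.card := by
    obtain ⟨v, hv⟩ : S.Nonempty := card_pos.1 (by omega)
    have h1 := hdeg v hv
    have h2 : nb G S v ⊆ S.erase v := fun x hx =>
      mem_erase.2 ⟨(mem_nb.1 hx).2.ne', (mem_nb.1 hx).1⟩
    have h3 := card_le_card h2
    rw [card_erase_of_mem hv] at h3
    omega
  have hsep : ∀ v ∈ S, ∃ T P Q : Finset V, Sepn G S T P Q ∧ T.card = 3 ∧ v ∈ T := by
    intro v hv
    have h1 := hcon v hv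
    rw [threeConn_iff] at h1
    have hc : 4 ≤ (S.erase v).card := by
      rw [card_erase_of_mem hv]
      omega
    have h2 : ¬ C3 G (S.erase v) := fun h => h1 ⟨hc, h⟩
    unfold C3 at h2
    push Not at h2
    obtain ⟨T, P, Q, hs, hT⟩ := h2 (by omega)
    refine ⟨insert v T, P, Q, hs.insS hv, ?_, mem_insert_self v T⟩
    have h6 := hC.2 _ _ _ (hs.insS hv)
    have h7 := card_insert_le v T
    omega
  have hex : ∃ n : ℕ, ∃ T P Q : Finset V, Sepn G S T P Q ∧ T.card = 3 ∧ P.card = n := by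
    obtain ⟨v, hv⟩ : S.Nonempty := card_pos.1 (by omega)
    obtain ⟨T, P, Q, hs, hT, -⟩ := hsep v hv
    exact ⟨P.card, T, P, Q, hs, hT, rfl⟩
  classical
  obtain ⟨T, A, B, h1, hT, hA⟩ := Nat.find_spec hex
  have hmin : ∀ T' P' Q' : Finset V, Sepn G S T' P' Q' → T'.card = 3 → A.card ≤ P'.card := by
    intro T' P' Q' hs hT'
    rw [hA]
    exact Nat.find_min' hex ⟨T', P', Q', hs, hT', rfl⟩
  obtain ⟨v, hv⟩ := h1.p0
  have hvS : v ∈ S := h1.subP hv
  obtain ⟨T2, A2, B2, h2, hT2, hvT⟩ := hsep v hvS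
  -- `A` has at least two vertices
  have hA2 : 2 ≤ A.card := by
    by_contra hlt
    have hc1 : A.card = 1 := by
      have h0 := card_pos.2 h1.p0
      omega
    obtain ⟨a, ha⟩ := card_eq_one.1 hc1
    have hA1 : A = {v} := by
      rw [ha, mem_singleton] at hv
      rw [ha, hv]
    have hsub : nb G S v ⊆ T := by
      intro x hx
      obtain ⟨hxS, hvx⟩ := mem_nb.1 hx
      rcases (h1.un x).1 hxS with h | h | h
      · exact h
      · rw [hA1, mem_singleton] at h
        exact absurd h hvx.ne'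
      · exact absurd hvx (h1.ne v hv x h)
    have h6 := card_le_card hsub
    have h7 := hdeg v hvS
    omega
  -- the nine cells
  have cT := CKL.cells h2 T h1.subT
  have cA := CKL.cells h2 A h1.subP
  have cB := CKL.cells h2 B h1.subQ
  have cT2 := CKL.cells h1 T2 h2.subT
  have cA2 := CKL.cells h1 A2 h2.subP
  have cB2 := CKL.cells h1 B2 h2.subQ
  rw [inter_comm T2 T, inter_comm T2 A, inter_comm T2 B] at cT2
  rw [inter_comm A2 T, inter_comm A2 A, inter_comm A2 B] at cA2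
  rw [inter_comm B2 T, inter_comm B2 A, inter_comm B2 B] at cB2
  have hat : 0 < (A ∩ T2).card := card_pos.2 ⟨v, mem_inter.2 ⟨hv, hvT⟩⟩
  have m1 := hmin _ _ _ h1.symm hT
  have m2 := hmin _ _ _ h2 hT2
  have m3 := hmin _ _ _ h2.symm hT2
  have kA : ∀ {X Y : Finset V}, Sepn G S T2 X Y →
      (A ∩ T2).card + (A ∩ X).card ≤ A.card →
      (A ∩ X).card = 0 ∨ 4 ≤ (T ∩ X).card + (T ∩ T2).card + (A ∩ T2).card := by
    intro X Y hXY hle
    rcases Nat.eq_zero_or_pos (A ∩ X).card with h0 | h0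
    · exact Or.inl h0
    right
    obtain ⟨T3, Q3, hs, hc⟩ := CKL.corner_le h1.symm hXY (card_pos.1 h0)
    have h6 := hC.2 _ _ _ hs
    by_contra hlt
    have h7 := hmin _ _ _ hs (by omega)
    omega
  have kB : ∀ {X Y : Finset V}, Sepn G S T2 X Y →
      (B ∩ X).card = 0 ∨ 3 ≤ (T ∩ X).card + (T ∩ T2).card + (B ∩ T2).card := by
    intro X Y hXY
    rcases Nat.eq_zero_or_pos (B ∩ X).card with h0 | h0
    · exact Or.inl h0
    right
    obtain ⟨T3, Q3, hs, hc⟩ := CKL.corner_le h1 hXY (card_pos.1 h0)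
    have h6 := hC.2 _ _ _ hs
    omega
  have k1 := kA h2 (by omega)
  have k2 := kA h2.symm (by omega)
  have k3 := kB h2
  have k4 := kB h2.symm
  omega

end Pool.Agent.Xu.X4
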