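import Pool.Agent.Lib.MP_144d21_co.X4.Iface2
import Pool.Agent.Lib.MP_144d21_co.X2.H16.Star
import Pool.Agent.Lib.MP_144d21_co.X2.H16.Bnn
import Pool.Agent.Lib.MP_144d21_co.X2.H25.Conn
import Pool.Agent.Lib.MP_144d21_co.XU.H34.Con2

/-!
# MP_144d21_co, project X4, module DVP: strict form of DV when two neighbours are not adjacent
-/

set_option autoImplicit false

namespace Pool.Agent.Xu.X4

open Finset Polynomial

theorem dvp (hB : BposS) : DvpS := by
  intro V _ _ G S v a b h3 h3' hv ha hb hab hnab
  have hcon : Conn G (S.erase v) := h3.2.1.2.2 v hv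
  have hcard : 2 ≤ (S.erase v).card := le_trans (by norm_num) h3'.1
  obtain ⟨haS, hva⟩ := mem_nb.mp ha
  obtain ⟨hbS, hvb⟩ := mem_nb.mp hb
  have haE : a ∈ S.erase v := mem_erase.mpr ⟨hva.ne', haS⟩
  have hbE : b ∈ S.erase v := mem_erase.mpr ⟨hvb.ne', hbS⟩
  have hadj : (add G a b).Adj a b := X2.add_adj.mpr (Or.inr ⟨hab, Or.inl ⟨rfl, rfl⟩⟩)
  have h3a : ThreeConn (add G a b) (S.erase v) :=
    X2.H25.ThreeConn.mono h3' fun u _ w _ h => X2.add_adj.mpr (Or.inl h)
  have hstrict : bet G (S.erase v) < bet (add G a b) (S.erase v) := by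
    have h1 := X2.bet_add G (S.erase v) a b haE hbE hab hnab
    have h2 := hB V _ _ (H34.con2 V (add G a b) (S.erase v) a b h3a haE hbE hadj)
    linarith
  obtain ⟨k, hk⟩ : ∃ k, (nb G S v).card = k + 2 := by
    have : ({a, b} : Finset V).card ≤ (nb G S v).card := card_le_card (by
      intro z hz
      rcases mem_insert.mp hz with rfl | hz
      · exact ha
      · rw [mem_singleton] at hz
        rw [hz]
        exact hb)
    rw [card_pair hab] at this
    exact ⟨(nb G S v).card - 2, by omega⟩
  have hk' : (((nb G S v).erase a).erase b).card = k := by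
    rw [card_erase_of_mem (mem_erase.mpr ⟨hab.symm, hb⟩), card_erase_of_mem ha, hk]
    omega
  let e := (((nb G S v).erase a).erase b).equivFinOfCardEq hk'
  let y : Fin k → V := fun i => ((e.symm i : ((nb G S v).erase a).erase b) : V)
  have hyi : Function.Injective y := Subtype.val_injective.comp e.symm.injective
  have hym : ∀ i, y i ∈ ((nb G S v).erase a).erase b := fun i => (e.symm i).2
  have hys : ∀ w ∈ ((nb G S v).erase a).erase b, ∃ i, y i = w := fun w hw =>
    ⟨e ⟨w, hw⟩, by simp [y]⟩
  let x : Fin (k + 1 + 1) → V := Fin.cons a (Fin.cons b y)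
  have hx0 : x 0 = a := rfl
  have hx1 : x 1 = b := rfl
  have hxi : Function.Injective x := by
    refine Fin.cons_injective_iff.mpr ⟨?_, Fin.cons_injective_iff.mpr ⟨?_, hyi⟩⟩
    · rintro ⟨i, hi⟩
      refine Fin.cases (fun h => ?_) (fun j h => ?_) i hi
      · exact hab h.symm
      · have := hym j
        have h' : y j = a := h
        rw [h'] at this
        simp at this
    · rintro ⟨i, hi⟩
      have := hym i
      rw [hi] at this
      simp at this
  have him : univ.image x = nb G S v := by
    ext w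
    rw [mem_image]
    constructor
    · rintro ⟨i, -, rfl⟩
      refine Fin.cases ha (fun j => ?_) i
      refine Fin.cases hb (fun l => ?_) j
      exact mem_of_mem_erase (mem_of_mem_erase (hym l))
    · intro hw
      by_cases hwa : w = a
      · exact ⟨0, mem_univ _, hwa.symm⟩
      by_cases hwb : w = b
      · exact ⟨1, mem_univ _, hwb.symm⟩
      obtain ⟨i, hi⟩ := hys w (mem_erase.mpr ⟨hwb, mem_erase.mpr ⟨hwa, hw⟩⟩)
      exact ⟨i.succ.succ, mem_univ _, hi⟩
  have hS : bet G S = ∑ i : Fin (k + 1), bet (G ⊔ X2.stg x i.castSucc) (S.erase v) :=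
    X2.stx V G S v (k + 1) x h3 hv hxi him
  have hfirst : bet G (S.erase v) < bet (G ⊔ X2.stg x (Fin.castSucc 0)) (S.erase v) := by
    refine lt_of_lt_of_le hstrict ?_
    have h1 := X2.bmon V (add G a b) (X2.stg x (Fin.castSucc 0)) (S.erase v) h3a.2.1.2.1 hcard
    refine le_trans h1 (le_of_eq ?_)
    apply X2.bet_congr
    intro u _ w _
    rw [SimpleGraph.sup_adj, SimpleGraph.sup_adj, X2.add_adj]
    constructor
    · rintro ((h | ⟨h1, h2⟩) | h)
      · exact Or.inl h
      · right
        rw [X2.stg_adj]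
        refine ⟨h1, 1, by simp, ?_⟩
        exact h2
      · exact Or.inr h
    · rintro (h | h)
      · exact Or.inl (Or.inl h)
      · exact Or.inr h
  rw [hS, hk, Fin.sum_univ_succ]
  have hrest : ∑ _i : Fin k, bet G (S.erase v) ≤
      ∑ i : Fin k, bet (G ⊔ X2.stg x i.succ.castSucc) (S.erase v) :=
    sum_le_sum fun i _ => X2.bmon V G _ _ hcon hcard
  rw [sum_const, card_univ, Fintype.card_fin, nsmul_eq_mul] at hrest
  push_cast
  linarith

end Pool.Agent.Xu.X4
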